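import Pool.Agent.Helper1.SG.FIB86
import Pool.Agent.Helper13.SG.SUM
import Pool.Agent.Helper13.SG.TOP
import Pool.Agent.Helper18.SG.UP
import Pool.Agent.Helper30.SG.CENC
import Pool.Agent.Helper33.SG.BOUND
import Pool.Agent.Helper43.SG.ODD
import Pool.Agent.Helper47.SG.CENB
import Pool.Agent.Helper58.SG.CENA
import Pool.Agent.Helper58.SG.LOW
import Pool.Agent.Helper63.SG.RUL
import Pool.Agent.Helper72.SG.Constr
import Pool.Agent.Helper82.SG.CNT
import Pool.Agent.Helper84.SG.CLS
import Pool.Agent.Helper86.SG.ASM
import Pool.Agent.Helper86.SG.Fin
import Pool.Agent.Helper87.SG.KL2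
import Pool.Agent.Helper87.SG.SRC

/-!
# Signed Johnson and Kneser graphs: all negative `t`

For every `k` and every negative integer `t` the graphs `J_±(n,k,t)` and `K_±(n,k,t)` have the same
independence number for all large `n`.  For odd `t` this is known (proved here again, `ODD`); the case
of even `t` was open.

Proof for `t = -s`, `s = 2d+2 < k` (for `s ≥ k` the graphs are equal). Let `F` be independent in
`J_±(n,k,-s)`. A member of `F` clashes at an `s`-subset `A` of its support if some member of `F` is
opposite to it on `A`. A support is exceptional if it carries a clashing member or fewer than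
`κ = 2 (C(k-1,0) + ... + C(k-1,d))` members. Two members with the same non-clashing support differ in at
most `2d+1` places; by Kleitman's theorem with the characterisation of equality (`KL1`, `REV`,
`KL2`, `KL3`, `FIB`) there are at most `κ` members over such a support `S`, and if there are `κ`, then
they are all the vectors over `S` which differ from a sign vector `c` in at most `d` places apart from
one free coordinate `f(S)` (`SRC`). Two facts on these (`RUL`): for non-exceptional `S`, `S'` with
`#(S ∩ S') ≥ s`, if `f(S) ∈ S'` and `f(S') ∈ S` then `f(S) = f(S')`, and if `f(S) = f(S')` then the sign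
vectors agree on `S ∩ S'` off `f(S)`; and for a clash at `A ⊆ S` all members which clash at `A` vanish
at `f(S)` (`CLS`).

So the size of `F` is at most `κ C(n,k)` minus the number of supports with fewer than `κ` members plus
`2^k` times the number of clashing supports (`SUM`). For a clash at `A` let `μ` be the number of
coordinates outside `A` where not all members clashing at `A` vanish: there are only `O(μ^(k-s-1))`
supports of members clashing at `A` (two opposite ones meet elsewhere, `UP`), but at least `C(μ,k-s)`
exceptional supports contain `A` (`LOW`); a sunflower argument (`SUN`) handles the sets `A` with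
bounded `μ`. Hence there are only boundedly many exceptional supports (`BOUND`), if `F` has at least
`κ C(n,k)` members. A function `f` on the `k`-sets with the above rule has a constant source (`LIFT`);
this gives a set `T` and a coordinate `v₁` outside `T` such that, for a `k`-set `S` which is not disjoint
from the set of the coordinates in no exceptional support, `f(S) ∈ T` if `S` meets `T`, and `f(S) = v₁` if
`S` does not meet `T` and contains `v₁` (`TOP`). Then the members whose supports do not meet `T` differ
from one sign vector in at most `d+1` places (`CENA`, `CENB`), and there are at most `κ` members over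
each support which meets `T` (`CENC`). Such a family is not larger than an explicit family which is
independent in `K_±(n,k,-s)` (`CON`).

The statements of the lemmas are in `Pool/Agent/Helper86/SG/Defs.lean`; they were proved in Lean by
helpers 1, 13, 18, 30, 33, 43, 47, 58, 63, 72, 82, 84 and 87.
-/

set_option autoImplicit false

open Finset

namespace Pool.Agent.Results.MP_66bcf1_co.NegativeT

open Pool.Agent.Helper86.SG (J K)

theorem src : _root_.SG.SRCStm := Pool.Agent.Helper87.SG.src Pool.Agent.Helper1.SG.fib86

theorem goal : _root_.SG.GOALStm :=
  _root_.SG.asm Pool.Agent.Helper1.SG.fib86 src Pool.Agent.Helper63.SG.rul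
    (Pool.Agent.Helper33.SG.bound (Pool.Agent.Helper13.SG.sum src) Pool.Agent.Helper18.SG.up
      (Pool.Agent.Helper58.SGL.low src Pool.Agent.Helper84.SG.cls) Pool.Agent.Helper84.SG.cls src
      Pool.Agent.Helper63.SG.rul)
    Pool.Agent.Helper13.SG.top (Pool.Agent.Helper58.SGC.cena Pool.Agent.Helper63.SG.rul)
    Pool.Agent.Helper47.SGB.cenb (Pool.Agent.Helper30.SG.cenc Pool.Agent.Helper1.SG.fib86)
    Pool.Agent.Helper82.SG.cnt Pool.Agent.Helper72.SG.con

/-- For every `k` and every negative integer `t`, `α(J_±(n,k,t)) = α(K_±(n,k,t))` for all
sufficiently large `n`. -/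
theorem result (k : ℕ) (t : ℤ) (ht : t < 0) : ∃ n₀ : ℕ, ∀ n : ℕ, n₀ ≤ n →
    (J n k t).indepNum = (K n k t).indepNum := by
  obtain ⟨m, hm⟩ := Int.eq_ofNat_of_zero_le (show 0 ≤ -t - 1 by omega)
  rcases Nat.even_or_odd' m with ⟨d, hd | hd⟩
  · -- `t = -(2d+1)`
    have e : t = -((2 * d + 1 : ℕ) : ℤ) := by
      push_cast
      omega
    rw [e]
    exact Pool.Agent.Helper86.SG.fin k _
      (Or.inr (Pool.Agent.Helper43.SG.odd Pool.Agent.Helper87.SG.kl2 k d))
  · -- `t = -(2d+2)`
    have e : t = -(2 * (d : ℤ) + 2) := by omega
    rw [e]
    exact Pool.Agent.Helper86.SG.finEven goal k d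

end Pool.Agent.Results.MP_66bcf1_co.NegativeT
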